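import Pool.Agent.H213.MSB.Main

set_option autoImplicit false

open Finset Polynomial
open Pool.Agent.Helper771.MultSeq

namespace Pool.Agent.H213.MSB

theorem gg_CN (β : ℝ) (hβ : -1 < β) (s : Finset ℕ) (p q : ℝ) (hp : 0 ≤ p) (hq : 0 < q) (c : ℕ → ℝ)
    (h0 : ∑ k ∈ s, c k = 0) (h1 : ∑ k ∈ s, (k:ℝ) * c k = 0) :
    0 ≤ ∑ k ∈ s, ∑ l ∈ s, (c k * c l * ((gg p q (((k:ℝ) + β / 2) ^ 2) -
          gg p q (((l:ℝ) + β / 2) ^ 2)) * (((k:ℝ) - l) / (k + l + β)))) := by
  simp only [term_id β p q hβ hp hq]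
  have hnz : ∀ k : ℕ, p * ((k:ℝ) + β / 2) ^ 2 + q ≠ 0 := fun k => by positivity
  refine quad s (fun k => (k:ℝ) + β / 2) (fun k => c k / (p * ((k:ℝ) + β / 2) ^ 2 + q)) p q
    hp hq.le ?_ ?_
  · rw [← h0]
    refine sum_congr rfl fun k _ => ?_
    rw [mul_div_cancel₀ _ (hnz k)]
  · have : ∑ k ∈ s, ((k:ℝ) + β / 2) * c k = 0 := by
      simp only [add_mul, sum_add_distrib]
      rw [h1, ← mul_sum, h0]; ring
    rw [← this]
    refine sum_congr rfl fun k _ => ?_
    rw [mul_div_cancel₀ _ (hnz k)]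

theorem energyCN (n : ℕ) (β x : ℝ) (hβ : -1 < β) (hx : x < 0) (w c : ℕ → ℝ) (hw0 : w 0 = 0)
    (hE1 : 0 ≤ ∑ k ∈ range (n + 1), ∑ l ∈ range (n + 1),
      c k * c l * ((w k - w l) * (((k:ℝ) - l) / (k + l + β))))
    (hrec : ∀ k < n, w (k + 1) * c (k + 1) = x * (((n:ℝ) - k) * c k))
    (h0 : ∑ k ∈ range (n + 1), c k = 0) (h1 : ∑ k ∈ range (n + 1), (k:ℝ) * c k = 0) :
    ∀ k ∈ range (n + 1), c k = 0 := by
  set s := range (n + 1) with hs
  set E : ℝ := ∑ k ∈ s, ∑ l ∈ s, c k * c l * ((w k - w l) * (((k:ℝ) - l) / (k + l + β))) with hE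
  -- the upper bound
  set T : ℝ := ∑ k ∈ s, ∑ l ∈ s, (w k * c k) * (c l * (((k:ℝ) - l) / (k + l + β))) with hT
  have hET : E = 2 * T := by
    have e1 : E = T - ∑ k ∈ s, ∑ l ∈ s, (w l * c l) * (c k * (((k:ℝ) - l) / (k + l + β))) := by
      rw [hE, hT, ← sum_sub_distrib]
      refine sum_congr rfl fun k _ => ?_
      rw [← sum_sub_distrib]
      refine sum_congr rfl fun l _ => ?_
      ring
    have e2 : ∑ k ∈ s, ∑ l ∈ s, (w l * c l) * (c k * (((k:ℝ) - l) / (k + l + β))) = - T := by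
      rw [sum_comm, hT, ← sum_neg_distrib]
      refine sum_congr rfl fun k _ => ?_
      rw [← sum_neg_distrib]
      refine sum_congr rfl fun l _ => ?_
      have : ((l:ℝ) - k) / (l + k + β) = - (((k:ℝ) - l) / (k + l + β)) := by
        rw [← neg_div]
        congr 1 <;> ring
      rw [this]; ring
    rw [e1, e2]; ring
  have hTx : T = x * ∑ k ∈ s, ∑ l ∈ s, (((n:ℝ) - k) * c k) * (c l * (((k:ℝ) + 1 - l) / (k + 1 + l + β))) := by
    rw [hT, hs, sum_range_succ']
    have e0 : ∑ l ∈ range (n + 1), (w 0 * c 0) * (c l * ((((0:ℕ):ℝ) - l) / (((0:ℕ):ℝ) + l + β))) = 0 := by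
      apply sum_eq_zero
      intro l _
      rw [hw0]; ring
    rw [e0, add_zero, sum_range_succ (fun k => ∑ l ∈ range (n + 1), (((n:ℝ) - k) * c k) *
      (c l * (((k:ℝ) + 1 - l) / (k + 1 + l + β)))) n]
    have e1 : ∑ l ∈ range (n + 1), (((n:ℝ) - n) * c n) *
      (c l * (((n:ℝ) + 1 - l) / (n + 1 + l + β))) = 0 := by
      apply sum_eq_zero
      intro l _
      ring
    rw [e1, add_zero, mul_sum]
    refine sum_congr rfl fun k hk => ?_
    rw [mul_sum]
    refine sum_congr rfl fun l _ => ?_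
    rw [hrec k (mem_range.1 hk)]
    push_cast
    ring
  set P : ℕ → ℝ := fun k => (k:ℝ) + (1 + β) / 2 with hP
  have hPpos : ∀ k, 0 < P k := fun k => by
    rw [hP]
    have : (0:ℝ) ≤ k := Nat.cast_nonneg k
    simp only
    linarith
  have hEx : E = x * ((2 * n + 1 + β) * ∑ k ∈ s, ∑ l ∈ s, c k * c l / (P k + P l) +
      4 * ∑ k ∈ s, ∑ l ∈ s, (P k * c k) * (P l * c l) / (P k + P l)) := by
    have e1 : ∑ k ∈ s, ∑ l ∈ s, (((n:ℝ) - k) * c k) * (c l * (((k:ℝ) + 1 - l) / (k + 1 + l + β))) =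
        ∑ k ∈ s, ∑ l ∈ s, (((n:ℝ) - l) * c l) * (c k * (((l:ℝ) + 1 - k) / (l + 1 + k + β))) := sum_comm
    have e2 : ∑ k ∈ s, ∑ l ∈ s, (c k * c l + (P k * c k) * c l + c k * (P l * c l)) = 0 := by
      have : ∑ k ∈ s, ∑ l ∈ s, (c k * c l + (P k * c k) * c l + c k * (P l * c l)) =
          (∑ k ∈ s, c k) * (∑ l ∈ s, c l) + (∑ k ∈ s, P k * c k) * (∑ l ∈ s, c l) +
            (∑ k ∈ s, c k) * (∑ l ∈ s, P l * c l) := by
        rw [sum_mul_sum, sum_mul_sum, sum_mul_sum]
        simp only [← sum_add_distrib]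
      rw [this, h0]; ring
    have e3 : E = x * (∑ k ∈ s, ∑ l ∈ s, (((n:ℝ) - k) * c k) * (c l * (((k:ℝ) + 1 - l) / (k + 1 + l + β))) +
        ∑ k ∈ s, ∑ l ∈ s, (((n:ℝ) - l) * c l) * (c k * (((l:ℝ) + 1 - k) / (l + 1 + k + β)))) := by
      rw [hET, hTx, ← e1]; ring
    rw [e3]
    congr 1
    rw [← sub_eq_zero]
    rw [← neg_eq_zero, ← e2]
    simp only [mul_sum, ← sum_add_distrib, ← sum_sub_distrib, ← sum_neg_distrib]
    refine sum_congr rfl fun k _ => sum_congr rfl fun l _ => ?_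
    have g1 : (k:ℝ) + 1 + l + β ≠ 0 := by
      have : (0:ℝ) ≤ k := Nat.cast_nonneg k
      have : (0:ℝ) ≤ l := Nat.cast_nonneg l
      have : (0:ℝ) < (k:ℝ) + 1 + l + β := by linarith
      exact this.ne'
    have g2 : (l:ℝ) + 1 + k + β = (k:ℝ) + 1 + l + β := by ring
    have g3 : P k + P l = (k:ℝ) + 1 + l + β := by rw [hP]; simp only; ring
    rw [g2, g3]
    rw [hP]
    simp only
    field_simp
    ring
  obtain ⟨q1, q2⟩ := cauchy_pos P s (fun k _ => hPpos k) (fun k _ l _ h => by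
    rw [hP] at h
    simp only at h
    have : (k:ℝ) = l := by linarith
    exact_mod_cast this) c
  obtain ⟨q3, -⟩ := cauchy_pos P s (fun k _ => hPpos k) (fun k _ l _ h => by
    rw [hP] at h
    simp only at h
    have : (k:ℝ) = l := by linarith
    exact_mod_cast this) (fun k => P k * c k)
  apply q2
  have hn : (0:ℝ) < 2 * n + 1 + β := by
    have : (0:ℝ) ≤ n := Nat.cast_nonneg n
    linarith
  by_contra hne
  have hpos : 0 < ∑ k ∈ s, ∑ l ∈ s, c k * c l / (P k + P l) := lt_of_le_of_ne q1 (Ne.symm hne)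
  have : 0 < (2 * n + 1 + β) * ∑ k ∈ s, ∑ l ∈ s, c k * c l / (P k + P l) +
      4 * ∑ k ∈ s, ∑ l ∈ s, (P k * c k) * (P l * c l) / (P k + P l) := by
    have := mul_pos hn hpos
    linarith
  have := mul_neg_of_neg_of_pos hx this
  linarith


/-- the condition on the weights -/
def CN (w : ℕ → ℝ) : Prop := ∀ (n : ℕ) (c : ℕ → ℝ), ∑ k ∈ range (n + 1), c k = 0 →
  ∑ k ∈ range (n + 1), (k:ℝ) * c k = 0 → 0 ≤ ∑ k ∈ range (n + 1), ∑ l ∈ range (n + 1),
      c k * c l * ((w k - w l) * (((k:ℝ) - l) / (k + l + 0)))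

theorem CN_sq : CN (fun k => (k:ℝ) * k) := by
  intro n c h0 h1
  have e1 : ∀ k l : ℕ, c k * c l * (((k:ℝ) * k - (l:ℝ) * l) * (((k:ℝ) - l) / (k + l + 0))) =
      c k * c l * ((k:ℝ) - l) ^ 2 := by
    intro k l
    rcases eq_or_ne k l with h | h
    · subst h; simp
    · have hkl : (0:ℝ) < k + l := by
        have : 1 ≤ k + l := by omega
        have : (1:ℝ) ≤ (k:ℝ) + l := by exact_mod_cast this
        linarith
      rw [add_zero]
      field_simp
      ring
  simp only [e1]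
  have : ∑ k ∈ range (n + 1), ∑ l ∈ range (n + 1), c k * c l * ((k:ℝ) - l) ^ 2 =
      (∑ k ∈ range (n + 1), (k:ℝ) ^ 2 * c k) * (∑ l ∈ range (n + 1), c l) +
        (∑ k ∈ range (n + 1), c k) * (∑ l ∈ range (n + 1), (l:ℝ) ^ 2 * c l) -
        2 * ((∑ k ∈ range (n + 1), (k:ℝ) * c k) * (∑ l ∈ range (n + 1), (l:ℝ) * c l)) := by
    rw [sum_mul_sum, sum_mul_sum, sum_mul_sum]
    simp only [mul_sum, ← sum_add_distrib, ← sum_sub_distrib]
    refine sum_congr rfl fun k _ => sum_congr rfl fun l _ => ?_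
    ring
  rw [this, h0, h1]; simp

theorem ms_CN {w : ℕ → ℝ} (hw0 : w 0 = 0) (hwp : ∀ k, 0 < w (k + 1)) (hw : CN w) :
    IsMultiplierSequence (gam w) := by
  apply Pool.Agent.Q163.LP.polya_schur_pos (fun k => gam_pos hwp k)
  intro n
  right
  intro z hz
  set Wt : unitInterval → ℕ → ℝ := fun t k => (1 - t) * ((k:ℝ) * k) + t * w k with hWt
  have ht0 : ∀ t : unitInterval, (0:ℝ) ≤ t := fun t => t.2.1
  have ht1 : ∀ t : unitInterval, (t:ℝ) ≤ 1 := fun t => t.2.2
  have hWpos : ∀ (t : unitInterval) k, 0 < Wt t (k + 1) := by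
    intro t k
    rw [hWt]
    have h0 := ht0 t
    have h2 : (0:ℝ) < ((k + 1 : ℕ) : ℝ) * ((k + 1 : ℕ) : ℝ) := by positivity
    simp only
    rcases lt_or_eq_of_le (ht1 t) with h1 | h1
    · have h3 : 0 < (1 - (t:ℝ)) * (((k + 1 : ℕ) : ℝ) * ((k + 1 : ℕ) : ℝ)) := mul_pos (by linarith) h2
      have h4 := mul_nonneg h0 (hwp k).le
      linarith
    · rw [h1]
      have := hwp k
      linarith
  have hWc : ∀ k, Continuous fun t => Wt t k := by
    intro k
    rw [hWt]
    have ht : Continuous fun t : unitInterval => (t : ℝ) := continuous_subtype_val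
    fun_prop
  have hgc : ∀ k, Continuous fun t => gam (Wt t) k := by
    intro k
    unfold gam
    refine continuous_finsetProd _ fun j _ => ?_
    exact continuous_const.div (hWc (j + 1)) fun t => (hWpos t j).ne'
  have hWCN : ∀ t : unitInterval, CN (Wt t) := by
    intro t m c h0 h1
    have e1 : ∑ k ∈ range (m + 1), ∑ l ∈ range (m + 1),
        c k * c l * ((Wt t k - Wt t l) * (((k:ℝ) - l) / (k + l + 0))) =
        (1 - (t:ℝ)) * ∑ k ∈ range (m + 1), ∑ l ∈ range (m + 1),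
        c k * c l * (((k:ℝ) * k - (l:ℝ) * l) * (((k:ℝ) - l) / (k + l + 0))) +
        t * ∑ k ∈ range (m + 1), ∑ l ∈ range (m + 1),
        c k * c l * ((w k - w l) * (((k:ℝ) - l) / (k + l + 0))) := by
      simp only [mul_sum, ← sum_add_distrib]
      refine sum_congr rfl fun k _ => sum_congr rfl fun l _ => ?_
      rw [hWt]
      ring
    rw [e1]
    have h2 := CN_sq m c h0 h1
    have h3 := hw m c h0 h1
    have h4 := ht0 t
    have h5 := ht1 t
    exact add_nonneg (mul_nonneg (by linarith) h2) (mul_nonneg h4 h3)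
  set A : unitInterval → ℕ → ℝ := fun t k => (n.choose k : ℝ) * gam (Wt t) k with hA
  have hF1 : F n (A 1) z = 0 := by
    have h1 : aeval z (jen (gam w) 0 n) = F n (A 1) z := by
      unfold jen F
      rw [map_sum]
      refine sum_congr rfl fun k _ => ?_
      have e : Wt 1 = w := by
        rw [hWt]
        funext k
        simp
      rw [aeval_monomial, hA]
      simp only [e, zero_add]
      rfl
    rw [← h1]; exact hz
  refine path n A (fun k => continuous_const.mul (hgc k)) ?_ ?_ ?_ 1 z hF1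
  · intro t k hk
    have h1 : 0 < n.choose k := Nat.choose_pos hk
    have h2 : (0:ℝ) < n.choose k := by exact_mod_cast h1
    exact mul_pos h2 (gam_pos (hWpos t) k)
  · intro t x hx h0 h1
    have hW0 : Wt t 0 = 0 := by
      rw [hWt]
      simp [hw0]
    have h1' : ∑ k ∈ range (n + 1), (k:ℝ) * ((n.choose k : ℝ) * gam (Wt t) k * x ^ k) = 0 := by
      rw [← h1]; exact sum_congr rfl fun k _ => by ring
    have h2 := energyCN n 0 x (by norm_num) hx (Wt t) (fun k => (n.choose k : ℝ) * gam (Wt t) k * x ^ k)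
      hW0 (hWCN t n _ h0 h1') (by
      intro k hk
      rw [gam_succ, pow_succ]
      have h3 : (n.choose (k + 1) : ℝ) * ((k : ℝ) + 1) = n.choose k * ((n : ℝ) - k) := by
        have h4 := Nat.choose_succ_right_eq n k
        have h5 : ((n.choose (k + 1) * (k + 1) : ℕ) : ℝ) = ((n.choose k * (n - k) : ℕ) : ℝ) := by rw [h4]
        rw [Nat.cast_mul, Nat.cast_mul, Nat.cast_sub hk.le] at h5
        push_cast at h5
        exact h5
      have h6 := (hWpos t k).ne'
      calc Wt t (k + 1) * ((n.choose (k + 1) : ℝ) *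
            (gam (Wt t) k * (((k : ℝ) + 1) / Wt t (k + 1))) * (x ^ k * x)) =
            ((n.choose (k + 1) : ℝ) * ((k : ℝ) + 1)) * gam (Wt t) k * (x ^ k * x) *
              (Wt t (k + 1) / Wt t (k + 1)) := by ring
        _ = _ := by rw [h3, div_self h6]; ring)
      h0 h1'
    have h3 := h2 0 (by simp)
    simp [gam] at h3
  · intro y hy
    have h1 : ∀ k, gam (Wt 0) k = ((k.factorial : ℝ))⁻¹ := by
      intro k
      induction k with
      | zero => simp [gam]
      | succ k ih =>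
        rw [gam_succ, ih]
        have h2 : Wt 0 (k + 1) = ((k : ℝ) + 1) * ((k : ℝ) + 1) := by
          rw [hWt]
          simp
        rw [h2, Nat.factorial_succ]
        push_cast
        have h3 : (k.factorial : ℝ) ≠ 0 := by exact_mod_cast k.factorial_ne_zero
        field_simp
    have h2 := inJ_of_ms Pool.Agent.Q163.LP.ms_invfact 0 n
    have h3 : ∀ z : ℂ, aeval z (jen (fun k => 1 / (k.factorial : ℝ)) 0 n) = F n (A 0) z := by
      intro z
      unfold jen F
      rw [map_sum]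
      refine sum_congr rfl fun k _ => ?_
      rw [aeval_monomial, hA]
      simp only [h1, zero_add, one_div]
      rfl
    rcases h2 with h4 | h4
    · exfalso
      have h6 := coeff_jen (fun k => 1 / (k.factorial : ℝ)) 0 n 0
      rw [h4] at h6
      simp at h6
    · exact h4 y (by rw [h3]; exact hy)

end Pool.Agent.H213.MSB
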