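import Pool.Graph.R_pool_sql_team_seeded_2aa45f1a.Q163.LP.Lim

/-!
# Real-rootedness along a path of polynomials without double zeros
-/

set_option autoImplicit false

open Finset Polynomial
open Pool.Agent.Helper771.MultSeq

namespace Pool.Agent.H213.MSB

/-- the polynomial with the coefficients `A k`, at a complex number -/
noncomputable def F (n : ℕ) (A : ℕ → ℝ) (z : ℂ) : ℂ := ∑ k ∈ range (n + 1), (A k : ℂ) * z ^ k

/-- the divided difference at `z` and its conjugate -/
noncomputable def H (n : ℕ) (A : ℕ → ℝ) (z : ℂ) : ℂ :=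
  ∑ k ∈ range (n + 1), (A k : ℂ) * ∑ j ∈ range k, z ^ j * (starRingEnd ℂ z) ^ (k - 1 - j)

theorem H_mul (n : ℕ) (A : ℕ → ℝ) (z : ℂ) :
    H n A z * (z - starRingEnd ℂ z) = F n A z - F n A (starRingEnd ℂ z) := by
  unfold H F
  rw [sum_mul, ← sum_sub_distrib]
  refine sum_congr rfl fun k _ => ?_
  rw [mul_assoc, (Commute.all z (starRingEnd ℂ z)).geom_sum₂_mul]
  ring

theorem F_conj (n : ℕ) (A : ℕ → ℝ) (z : ℂ) : F n A (starRingEnd ℂ z) = starRingEnd ℂ (F n A z) := by
  unfold F
  rw [map_sum]
  refine sum_congr rfl fun k _ => ?_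
  rw [map_mul, map_pow, Complex.conj_ofReal]

theorem H_zero {n : ℕ} {A : ℕ → ℝ} {z : ℂ} (hz : z.im ≠ 0) (h : F n A z = 0) : H n A z = 0 := by
  have h1 := H_mul n A z
  rw [F_conj, h, map_zero, sub_zero] at h1
  rcases mul_eq_zero.1 h1 with h2 | h2
  · exact h2
  · exfalso
    apply hz
    have := congrArg Complex.im h2
    simp at this
    linarith

theorem H_real {n : ℕ} {A : ℕ → ℝ} (x : ℝ) : (x : ℂ) * H n A x =
    ((∑ k ∈ range (n + 1), (k : ℝ) * A k * x ^ k : ℝ) : ℂ) := by
  unfold H
  rw [Complex.ofReal_sum, mul_sum]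
  refine sum_congr rfl fun k _ => ?_
  rw [Complex.conj_ofReal, geom_sum₂_self]
  rcases Nat.eq_zero_or_pos k with h | h
  · subst h; simp
  · obtain ⟨j, rfl⟩ : ∃ j, k = j + 1 := ⟨k - 1, by omega⟩
    rw [Nat.add_sub_cancel]
    push_cast
    ring

theorem F_real {n : ℕ} {A : ℕ → ℝ} (x : ℝ) : F n A x = ((∑ k ∈ range (n + 1), A k * x ^ k : ℝ) : ℂ) := by
  unfold F
  push_cast
  rfl

theorem F_pos {n : ℕ} {A : ℕ → ℝ} (hA : ∀ k ≤ n, 0 < A k) {x : ℝ} (hx : 0 ≤ x) :
    0 < ∑ k ∈ range (n + 1), A k * x ^ k := by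
  refine sum_pos' (fun k hk => ?_) ⟨0, by simp, ?_⟩
  · have := hA k (by have := mem_range.1 hk; omega)
    positivity
  · have := hA 0 (Nat.zero_le _)
    simpa using this

/-- the polynomial -/
noncomputable def pol (n : ℕ) (A : ℕ → ℝ) : ℝ[X] := ∑ k ∈ range (n + 1), monomial k (A k)

theorem aeval_pol (n : ℕ) (A : ℕ → ℝ) (z : ℂ) : aeval z (pol n A) = F n A z := by
  unfold pol F
  rw [map_sum]
  refine sum_congr rfl fun k _ => ?_
  rw [aeval_monomial]
  rfl

theorem coeff_pol (n : ℕ) (A : ℕ → ℝ) (k : ℕ) : (pol n A).coeff k = if k ≤ n then A k else 0 := by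
  unfold pol
  rw [finsetSum_coeff]
  simp only [coeff_monomial]
  split_ifs with h
  · rw [sum_eq_single k]
    · simp
    · intro j _ hj; simp [hj]
    · intro hk; exact absurd (mem_range.2 (by omega)) hk
  · apply sum_eq_zero
    intro j hj
    have := mem_range.1 hj
    rw [if_neg (by omega)]

theorem natDegree_pol {n : ℕ} {A : ℕ → ℝ} (hA : A n ≠ 0) : (pol n A).natDegree = n := by
  apply le_antisymm
  · rw [natDegree_le_iff_coeff_eq_zero]
    intro k hk
    rw [coeff_pol, if_neg (by omega)]
  · apply le_natDegree_of_ne_zero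
    rw [coeff_pol, if_pos le_rfl]
    exact hA

theorem lower {n : ℕ} {A : ℕ → ℝ} (hA : 0 < A n) (h : ∀ z : ℂ, F n A z = 0 → z.im = 0) (z : ℂ) :
    A n * |z.im| ^ n ≤ ‖F n A z‖ := by
  have hne : pol n A ≠ 0 := by
    intro h0
    have := coeff_pol n A n
    rw [h0, coeff_zero, if_pos le_rfl] at this
    linarith
  obtain ⟨s, hs1, hs2, -⟩ := orz_roots hne (Or.inr fun z hz => h z (by rw [← aeval_pol]; exact hz))
  rw [natDegree_pol hA.ne'] at hs1
  have hl : (pol n A).leadingCoeff = A n := by
    rw [leadingCoeff, natDegree_pol hA.ne', coeff_pol, if_pos le_rfl]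
  rw [hl] at hs2
  have e1 : F n A z = (A n : ℂ) * (s.map fun r : ℝ => z - (r : ℂ)).prod := by
    rw [← aeval_pol, hs2, map_mul, aeval_C, map_multiset_prod, Multiset.map_map]
    congr 2
    refine Multiset.map_congr rfl fun r _ => ?_
    simp
  rw [e1, norm_mul, Complex.norm_real, Real.norm_of_nonneg hA.le]
  apply mul_le_mul_of_nonneg_left _ hA.le
  rw [← hs1]
  clear hs1 hs2 e1
  induction s using Multiset.induction_on with
  | empty => simp
  | cons r s ih =>
    rw [Multiset.card_cons, Multiset.map_cons, Multiset.prod_cons, norm_mul, pow_succ, mul_comm]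
    apply mul_le_mul _ ih (by positivity) (norm_nonneg _)
    have := Complex.abs_im_le_norm (z - (r : ℂ))
    simpa using this

theorem root_bound {n : ℕ} {A : ℕ → ℝ} (hA : ∀ k ≤ n, 0 < A k) {z : ℂ} (h : F n A z = 0) :
    ‖z‖ ≤ 1 + (∑ k ∈ range n, A k) / A n := by
  have hn := hA n le_rfl
  have hs : 0 ≤ ∑ k ∈ range n, A k := sum_nonneg fun k hk => (hA k (by have := mem_range.1 hk; omega)).le
  by_contra hcon
  push Not at hcon
  have h1 : 1 < ‖z‖ := by
    have : 0 ≤ (∑ k ∈ range n, A k) / A n := by positivity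
    linarith
  have h2 : (∑ k ∈ range n, A k) / A n < ‖z‖ := by linarith
  rw [div_lt_iff₀ hn] at h2
  rcases Nat.eq_zero_or_pos n with h0 | h0
  · subst h0
    unfold F at h
    simp at h
    linarith
  · obtain ⟨m, rfl⟩ : ∃ m, n = m + 1 := ⟨n - 1, by omega⟩
    have h3 : (A (m + 1) : ℂ) * z ^ (m + 1) = - ∑ k ∈ range (m + 1), (A k : ℂ) * z ^ k := by
      unfold F at h
      rw [sum_range_succ] at h
      linear_combination h
    have h4 : A (m + 1) * ‖z‖ ^ (m + 1) ≤ (∑ k ∈ range (m + 1), A k) * ‖z‖ ^ m := by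
      calc A (m + 1) * ‖z‖ ^ (m + 1) = ‖(A (m + 1) : ℂ) * z ^ (m + 1)‖ := by
            rw [norm_mul, norm_pow, Complex.norm_real, Real.norm_of_nonneg hn.le]
        _ = ‖∑ k ∈ range (m + 1), (A k : ℂ) * z ^ k‖ := by rw [h3, norm_neg]
        _ ≤ ∑ k ∈ range (m + 1), ‖(A k : ℂ) * z ^ k‖ := norm_sum_le _ _
        _ ≤ ∑ k ∈ range (m + 1), A k * ‖z‖ ^ m := by
            refine sum_le_sum fun k hk => ?_
            have hk' := mem_range.1 hk
            have hAk := hA k (by omega)
            rw [norm_mul, norm_pow, Complex.norm_real, Real.norm_of_nonneg hAk.le]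
            apply mul_le_mul_of_nonneg_left _ hAk.le
            exact pow_le_pow_right₀ h1.le (by omega)
        _ = _ := by rw [sum_mul]
    have h5 : 0 < ‖z‖ ^ m := by positivity
    have h6 : A (m + 1) * ‖z‖ ^ (m + 1) = (‖z‖ * A (m + 1)) * ‖z‖ ^ m := by ring
    rw [h6] at h4
    have h7 := le_of_mul_le_mul_right h4 h5
    linarith

/-- Real-rootedness is preserved along a path of polynomials with positive coefficients which have no
double zeros. -/
theorem path (n : ℕ) (A : unitInterval → ℕ → ℝ) (hc : ∀ k, Continuous fun t => A t k)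
    (hpos : ∀ t k, k ≤ n → 0 < A t k)
    (hd : ∀ t, ∀ x : ℝ, x < 0 → ∑ k ∈ range (n + 1), A t k * x ^ k = 0 →
      ∑ k ∈ range (n + 1), (k : ℝ) * A t k * x ^ k ≠ 0)
    (hstart : ∀ z : ℂ, F n (A 0) z = 0 → z.im = 0) (t : unitInterval) (z : ℂ) (hz : F n (A t) z = 0) :
    z.im = 0 := by
  set S : Set unitInterval := {t | ∀ z : ℂ, F n (A t) z = 0 → z.im = 0} with hS
  have hFc : Continuous fun p : unitInterval × ℂ => F n (A p.1) p.2 := by
    unfold F
    refine continuous_finsetSum _ fun k _ => ?_
    exact (Complex.continuous_ofReal.comp ((hc k).comp continuous_fst)).mul (continuous_snd.pow k)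
  have hHc : Continuous fun p : unitInterval × ℂ => H n (A p.1) p.2 := by
    unfold H
    refine continuous_finsetSum _ fun k _ => ?_
    refine (Complex.continuous_ofReal.comp ((hc k).comp continuous_fst)).mul ?_
    refine continuous_finsetSum _ fun j _ => ?_
    exact (continuous_snd.pow j).mul ((Complex.continuous_conj.comp continuous_snd).pow _)
  have hcl : IsClosed S := by
    have : S = ⋂ z : ℂ, {t | A t n * |z.im| ^ n ≤ ‖F n (A t) z‖} := by
      ext t
      rw [hS, Set.mem_iInter]
      constructor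
      · intro h z
        exact lower (hpos t n le_rfl) h z
      · intro h z hz
        have h1 : A t n * |z.im| ^ n ≤ ‖F n (A t) z‖ := h z
        rw [hz, norm_zero] at h1
        have h2 := hpos t n le_rfl
        have h3 : |z.im| ^ n ≤ 0 := by
          by_contra hcon
          push Not at hcon
          have := mul_pos h2 hcon
          linarith
        have h4 : |z.im| ^ n = 0 := le_antisymm h3 (by positivity)
        have h6 : |z.im| = 0 := by
          by_contra h7
          exact (pow_ne_zero n h7) h4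
        exact abs_eq_zero.1 h6
    rw [this]
    refine isClosed_iInter fun z => isClosed_le ?_ ?_
    · exact (hc n).mul continuous_const
    · exact (hFc.comp (Continuous.prodMk_left z)).norm
  have hop : IsClosed Sᶜ := by
    have hbd : ∃ M : ℝ, ∀ t : unitInterval, 1 + (∑ k ∈ range n, A t k) / A t n ≤ M := by
      have hcont : Continuous fun t : unitInterval => 1 + (∑ k ∈ range n, A t k) / A t n := by
        refine continuous_const.add ((continuous_finsetSum _ fun k _ => hc k).div (hc n) ?_)
        intro t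
        exact (hpos t n le_rfl).ne'
      obtain ⟨M, hM⟩ := isCompact_univ.bddAbove_image (hcont.continuousOn (s := Set.univ))
      exact ⟨M, fun t => hM ⟨t, Set.mem_univ t, rfl⟩⟩
    obtain ⟨M, hM⟩ := hbd
    set N : Set (unitInterval × ℂ) := (Set.univ ×ˢ Metric.closedBall (0:ℂ) M) ∩
      {p | F n (A p.1) p.2 = 0 ∧ H n (A p.1) p.2 = 0} with hN
    have hNc : IsCompact N := by
      apply IsCompact.inter_right
      · exact isCompact_univ.prod (isCompact_closedBall _ _)
      · exact (isClosed_eq hFc continuous_const).inter (isClosed_eq hHc continuous_const)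
    have : Sᶜ = Prod.fst '' N := by
      ext t
      constructor
      · intro ht
        rw [hS] at ht
        simp only [Set.mem_compl_iff, Set.mem_ofPred_eq, not_forall] at ht
        obtain ⟨z, hz, him⟩ := ht
        refine ⟨(t, z), ⟨⟨Set.mem_univ _, ?_⟩, hz, H_zero him hz⟩, rfl⟩
        rw [mem_closedBall_zero_iff]
        exact (root_bound (hpos t) hz).trans (hM t)
      · rintro ⟨⟨t', z⟩, ⟨-, hz1, hz2⟩, rfl⟩ hmem
        simp only at hz1 hz2 hmem
        have him : z.im = 0 := hmem z hz1
        obtain ⟨x, rfl⟩ : ∃ x : ℝ, z = x := ⟨z.re, by apply Complex.ext <;> simp [him]⟩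
        have e1 : ∑ k ∈ range (n + 1), A t' k * x ^ k = 0 := by
          rw [F_real] at hz1
          exact_mod_cast hz1
        have hx : x < 0 := by
          by_contra hcon
          push Not at hcon
          have := F_pos (hpos t') hcon
          linarith
        have e2 : ∑ k ∈ range (n + 1), (k : ℝ) * A t' k * x ^ k = 0 := by
          have := H_real (n := n) (A := A t') x
          rw [hz2, mul_zero] at this
          exact_mod_cast this.symm
        exact hd t' x hx e1 e2
    rw [this]
    exact (hNc.image continuous_fst).isClosed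
  have hclop : IsClopen S := ⟨hcl, isClosed_compl_iff.1 hop⟩
  have huniv : S = Set.univ := hclop.eq_univ ⟨0, hstart⟩
  have ht : t ∈ S := by rw [huniv]; trivial
  exact ht z hz

end Pool.Agent.H213.MSB
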