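import Mathlib

/-!
# The energy identity for the difference equation `w (k + 1) c (k + 1) = x (n - k) c k`
-/

set_option autoImplicit false

open Finset

namespace Pool.Agent.H213.MSB

/-- The Cauchy matrix `1 / (p k + p l)` is strictly positive definite. -/
theorem cauchy_pos (p : ℕ → ℝ) (s : Finset ℕ) : (∀ k ∈ s, 0 < p k) →
    (∀ k ∈ s, ∀ l ∈ s, p k = p l → k = l) →
    ∀ c : ℕ → ℝ, 0 ≤ ∑ k ∈ s, ∑ l ∈ s, c k * c l / (p k + p l) ∧
      (∑ k ∈ s, ∑ l ∈ s, c k * c l / (p k + p l) = 0 → ∀ k ∈ s, c k = 0) := by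
  classical
  induction s using Finset.induction_on with
  | empty => intro _ _ c; simp
  | insert a s ha ih =>
    intro hp hinj c
    have hpa : 0 < p a := hp a (mem_insert_self a s)
    set c' : ℕ → ℝ := fun k => c k * (p k - p a) / (p k + p a) with hc'
    have hca : c' a = 0 := by simp [hc']
    obtain ⟨h1, h2⟩ := ih (fun k hk => hp k (mem_insert_of_mem hk))
      (fun k hk l hl => hinj k (mem_insert_of_mem hk) l (mem_insert_of_mem hl)) c'
    have key : ∑ k ∈ insert a s, ∑ l ∈ insert a s, c k * c l / (p k + p l) =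
        2 * p a * (∑ k ∈ insert a s, c k / (p k + p a)) ^ 2 +
          ∑ k ∈ s, ∑ l ∈ s, c' k * c' l / (p k + p l) := by
      have e1 : ∑ k ∈ insert a s, ∑ l ∈ insert a s, c' k * c' l / (p k + p l) =
          ∑ k ∈ s, ∑ l ∈ s, c' k * c' l / (p k + p l) := by
        rw [sum_insert ha]
        have : ∑ l ∈ insert a s, c' a * c' l / (p a + p l) = 0 := by
          apply sum_eq_zero
          intro l _
          rw [hca]; simp
        rw [this, zero_add]
        refine sum_congr rfl fun k _ => ?_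
        rw [sum_insert ha, hca]; simp
      rw [← e1, sq, sum_mul_sum, mul_sum, ← sum_add_distrib]
      refine sum_congr rfl fun k hk => ?_
      rw [mul_sum, ← sum_add_distrib]
      refine sum_congr rfl fun l hl => ?_
      have hk0 := hp k hk
      have hl0 := hp l hl
      rw [hc']
      simp only
      have g1 : p k + p l ≠ 0 := by positivity
      have g2 : p k + p a ≠ 0 := by positivity
      have g3 : p l + p a ≠ 0 := by positivity
      field_simp
      ring
    rw [key]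
    refine ⟨by positivity, fun h => ?_⟩
    have h3 : 2 * p a * (∑ k ∈ insert a s, c k / (p k + p a)) ^ 2 = 0 := by
      have : 0 ≤ 2 * p a * (∑ k ∈ insert a s, c k / (p k + p a)) ^ 2 := by positivity
      linarith
    have h4 : ∀ k ∈ s, c' k = 0 := h2 (by linarith)
    have h5 : ∀ k ∈ s, c k = 0 := by
      intro k hk
      have h6 := h4 k hk
      rw [hc'] at h6
      simp only at h6
      have hk0 := hp k (mem_insert_of_mem hk)
      have g2 : p k + p a ≠ 0 := by positivity
      rw [div_eq_zero_iff] at h6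
      rcases h6 with h6 | h6
      · rcases mul_eq_zero.1 h6 with h7 | h7
        · exact h7
        · exfalso
          have h8 := hinj k (mem_insert_of_mem hk) a (mem_insert_self a s) (by linarith)
          rw [h8] at hk
          exact ha hk
      · exact absurd h6 g2
    intro k hk
    rcases mem_insert.1 hk with hka | hk
    · rw [hka]
      have h6 : ∑ k ∈ insert a s, c k / (p k + p a) = 0 := by
        have h7 : (∑ k ∈ insert a s, c k / (p k + p a)) ^ 2 = 0 := by
          rcases mul_eq_zero.1 h3 with h8 | h8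
          · exfalso; linarith
          · exact h8
        exact pow_eq_zero_iff (two_ne_zero) |>.1 h7
      rw [sum_insert ha] at h6
      have h7 : ∑ k ∈ s, c k / (p k + p a) = 0 := by
        apply sum_eq_zero
        intro k hk
        rw [h5 k hk, zero_div]
      rw [h7, add_zero, div_eq_zero_iff] at h6
      rcases h6 with h6 | h6
      · exact h6
      · exfalso; linarith
    · exact h5 k hk

theorem quad (s : Finset ℕ) (κ d : ℕ → ℝ) (p q : ℝ) (hp : 0 ≤ p) (hq : 0 ≤ q)
    (h0 : ∑ k ∈ s, (p * κ k ^ 2 + q) * d k = 0) (h1 : ∑ k ∈ s, κ k * ((p * κ k ^ 2 + q) * d k) = 0) :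
    0 ≤ ∑ k ∈ s, ∑ l ∈ s, d k * d l * ((κ k - κ l) ^ 2 *
      (p * (κ k ^ 2 * κ l ^ 2) + q * (κ k ^ 2 + κ l ^ 2))) := by
  set D : ℕ → ℝ := fun j => ∑ k ∈ s, κ k ^ j * d k with hD
  have hDD : ∀ i j, D i * D j = ∑ k ∈ s, ∑ l ∈ s, κ k ^ i * d k * (κ l ^ j * d l) := fun i j =>
    sum_mul_sum _ _ _ _
  have e0 : p * D 2 + q * D 0 = 0 := by
    rw [← h0, hD]
    simp only
    rw [mul_sum, mul_sum, ← sum_add_distrib]
    refine sum_congr rfl fun k _ => by ring
  have e1 : p * D 3 + q * D 1 = 0 := by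
    rw [← h1, hD]
    simp only
    rw [mul_sum, mul_sum, ← sum_add_distrib]
    refine sum_congr rfl fun k _ => by ring
  have key : ∑ k ∈ s, ∑ l ∈ s, d k * d l * ((κ k - κ l) ^ 2 *
      (p * (κ k ^ 2 * κ l ^ 2) + q * (κ k ^ 2 + κ l ^ 2))) =
      p * (D 4 * D 2) + p * (D 2 * D 4) + q * (D 4 * D 0) + 2 * q * (D 2 * D 2) + q * (D 0 * D 4)
        - 2 * p * (D 3 * D 3) - 2 * q * (D 3 * D 1) - 2 * q * (D 1 * D 3) := by
    simp only [hDD, mul_sum, ← sum_add_distrib, ← sum_sub_distrib]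
    refine sum_congr rfl fun k _ => sum_congr rfl fun l _ => ?_
    ring
  rw [key]
  have e2 : q * D 0 = - (p * D 2) := by linarith
  have e3 : q * D 1 = - (p * D 3) := by linarith
  have : p * (D 4 * D 2) + p * (D 2 * D 4) + q * (D 4 * D 0) + 2 * q * (D 2 * D 2) + q * (D 0 * D 4)
        - 2 * p * (D 3 * D 3) - 2 * q * (D 3 * D 1) - 2 * q * (D 1 * D 3) =
        2 * q * (D 2) ^ 2 + 2 * p * (D 3) ^ 2 := by
    linear_combination (2 * D 4) * e2 - (4 * D 3) * e3
  rw [this]
  positivity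

/-- `g(z) = z² / (p z + q)` -/
noncomputable def gg (p q z : ℝ) : ℝ := z ^ 2 / (p * z + q)

theorem term_id (β p q : ℝ) (hβ : -1 < β) (hp : 0 ≤ p) (hq : 0 < q) (k l : ℕ) (ck cl : ℝ) :
    ck * cl * ((gg p q (((k:ℝ) + β / 2) ^ 2) - gg p q (((l:ℝ) + β / 2) ^ 2)) * (((k:ℝ) - l) / (k + l + β))) =
    (ck / (p * ((k:ℝ) + β / 2) ^ 2 + q)) * (cl / (p * ((l:ℝ) + β / 2) ^ 2 + q)) *
      ((((k:ℝ) + β / 2) - ((l:ℝ) + β / 2)) ^ 2 *
      (p * (((k:ℝ) + β / 2) ^ 2 * ((l:ℝ) + β / 2) ^ 2) +
        q * (((k:ℝ) + β / 2) ^ 2 + ((l:ℝ) + β / 2) ^ 2))) := by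
  rcases eq_or_ne k l with h | h
  · subst h; simp
  · have hkl : (0:ℝ) < k + l + β := by
      have : 1 ≤ k + l := by omega
      have : (1:ℝ) ≤ (k:ℝ) + l := by exact_mod_cast this
      linarith
    have g1 : p * ((k:ℝ) + β / 2) ^ 2 + q ≠ 0 := by positivity
    have g2 : p * ((l:ℝ) + β / 2) ^ 2 + q ≠ 0 := by positivity
    unfold gg
    rw [div_sub_div _ _ g1 g2]
    have g3 : (k:ℝ) + l + β ≠ 0 := hkl.ne'
    rw [div_mul_div_comm, mul_div_assoc', div_mul_div_comm, div_mul_eq_mul_div, div_eq_div_iff (by positivity)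
      (by positivity)]
    ring

end Pool.Agent.H213.MSB
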