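import Pool.Agent.H213.MSB.Energy

set_option autoImplicit false

open Finset

namespace Pool.Agent.H213.MSB

/-- the weights of the difference equation -/
noncomputable def W {ι : Type} [Fintype ι] (β a : ℝ) (p q m : ι → ℝ) (k : ℕ) : ℝ :=
  a * ((k : ℝ) * (k + β)) +
    ∑ i, m i * (gg (p i) (q i) (((k:ℝ) + β / 2) ^ 2) - gg (p i) (q i) ((β / 2) ^ 2))

theorem W_zero {ι : Type} [Fintype ι] (β a : ℝ) (p q m : ι → ℝ) : W β a p q m 0 = 0 := by
  unfold W; simp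

theorem gg_sub {p q : ℝ} (hp : 0 ≤ p) (hq : 0 < q) {z y : ℝ} (hz : 0 ≤ z) (hy : 0 ≤ y) :
    gg p q z - gg p q y = (z - y) * (p * z * y + q * (z + y)) / ((p * z + q) * (p * y + q)) := by
  unfold gg
  have g1 : p * z + q ≠ 0 := by positivity
  have g2 : p * y + q ≠ 0 := by positivity
  rw [div_sub_div _ _ g1 g2]
  congr 1
  ring

theorem W_pos {ι : Type} [Fintype ι] {β a : ℝ} (hβ : -1 < β) (ha : 0 ≤ a) {p q m : ι → ℝ}
    (hp : ∀ i, 0 ≤ p i) (hq : ∀ i, 0 < q i) (hm : ∀ i, 0 ≤ m i) (ham : 0 < a ∨ ∃ i, 0 < m i)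
    {k : ℕ} (hk : 1 ≤ k) : 0 < W β a p q m k := by
  have hk1 : (1:ℝ) ≤ k := by exact_mod_cast hk
  have h1 : 0 < (k:ℝ) * (k + β) := by
    have : 0 < (k:ℝ) + β := by linarith
    positivity
  have h2 : ((k:ℝ) + β / 2) ^ 2 - (β / 2) ^ 2 = (k:ℝ) * (k + β) := by ring
  have h3 : ∀ i, 0 < gg (p i) (q i) (((k:ℝ) + β / 2) ^ 2) - gg (p i) (q i) ((β / 2) ^ 2) := by
    intro i
    rw [gg_sub (hp i) (hq i) (sq_nonneg _) (sq_nonneg _), h2]
    have h4 : 0 < ((k:ℝ) + β / 2) ^ 2 := by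
      have : 0 < (k:ℝ) + β / 2 := by linarith
      positivity
    have := hp i
    have := hq i
    positivity
  unfold W
  have h5 : 0 ≤ ∑ i, m i * (gg (p i) (q i) (((k:ℝ) + β / 2) ^ 2) - gg (p i) (q i) ((β / 2) ^ 2)) :=
    sum_nonneg fun i _ => mul_nonneg (hm i) (h3 i).le
  rcases ham with h | ⟨i, hi⟩
  · have := mul_pos h h1
    linarith
  · have h6 : 0 < ∑ i, m i * (gg (p i) (q i) (((k:ℝ) + β / 2) ^ 2) - gg (p i) (q i) ((β / 2) ^ 2)) :=
      sum_pos' (fun i _ => mul_nonneg (hm i) (h3 i).le) ⟨i, mem_univ i, mul_pos hi (h3 i)⟩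
    have := mul_nonneg ha h1.le
    linarith

theorem energy {ι : Type} [Fintype ι] (n : ℕ) (β a x : ℝ) (hβ : -1 < β) (hx : x < 0)
    (p q m : ι → ℝ) (hp : ∀ i, 0 ≤ p i) (hq : ∀ i, 0 < q i) (hm : ∀ i, 0 ≤ m i) (c : ℕ → ℝ)
    (hrec : ∀ k < n, W β a p q m (k + 1) * c (k + 1) = x * (((n:ℝ) - k) * c k))
    (h0 : ∑ k ∈ range (n + 1), c k = 0) (h1 : ∑ k ∈ range (n + 1), (k:ℝ) * c k = 0) :
    ∀ k ∈ range (n + 1), c k = 0 := by
  set w := W β a p q m with hw
  set s := range (n + 1) with hs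
  set E : ℝ := ∑ k ∈ s, ∑ l ∈ s, c k * c l * ((w k - w l) * (((k:ℝ) - l) / (k + l + β))) with hE
  -- the lower bound
  have hE1 : 0 ≤ E := by
    have e1 : ∀ k l : ℕ, c k * c l * ((w k - w l) * (((k:ℝ) - l) / (k + l + β))) =
        a * (c k * c l * ((k:ℝ) - l) ^ 2) +
        ∑ i, m i * (c k * c l * ((gg (p i) (q i) (((k:ℝ) + β / 2) ^ 2) -
          gg (p i) (q i) (((l:ℝ) + β / 2) ^ 2)) * (((k:ℝ) - l) / (k + l + β)))) := by
      intro k l
      rcases eq_or_ne k l with h | h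
      · subst h; simp
      · have hkl : (0:ℝ) < k + l + β := by
          have : 1 ≤ k + l := by omega
          have : (1:ℝ) ≤ (k:ℝ) + l := by exact_mod_cast this
          linarith
        have e2 : w k - w l = a * (((k:ℝ) - l) * (k + l + β)) + ∑ i, m i * (gg (p i) (q i) (((k:ℝ) + β / 2) ^ 2) -
          gg (p i) (q i) (((l:ℝ) + β / 2) ^ 2)) := by
          rw [hw]
          unfold W
          have : ∑ i, m i * (gg (p i) (q i) (((k:ℝ) + β / 2) ^ 2) -
            gg (p i) (q i) (((l:ℝ) + β / 2) ^ 2)) = ∑ i, m i * (gg (p i) (q i) (((k:ℝ) + β / 2) ^ 2) -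
            gg (p i) (q i) ((β / 2) ^ 2)) - ∑ i, m i * (gg (p i) (q i) (((l:ℝ) + β / 2) ^ 2) -
            gg (p i) (q i) ((β / 2) ^ 2)) := by
            rw [← sum_sub_distrib]
            refine sum_congr rfl fun i _ => by ring
          rw [this]
          ring
        rw [e2, add_mul, mul_add, sum_mul, mul_sum]
        congr 1
        · field_simp
        · refine sum_congr rfl fun i _ => by ring
    have e3 : E = a * ∑ k ∈ s, ∑ l ∈ s, c k * c l * ((k:ℝ) - l) ^ 2 +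
        ∑ i, m i * ∑ k ∈ s, ∑ l ∈ s, (c k * c l * ((gg (p i) (q i) (((k:ℝ) + β / 2) ^ 2) -
          gg (p i) (q i) (((l:ℝ) + β / 2) ^ 2)) * (((k:ℝ) - l) / (k + l + β)))) := by
      rw [hE]
      simp only [e1, sum_add_distrib, mul_sum]
      congr 1
      rw [sum_comm]
      have : ∀ k ∈ s, ∑ l ∈ s, ∑ i, m i * (c k * c l * ((gg (p i) (q i) (((k:ℝ) + β / 2) ^ 2) -
          gg (p i) (q i) (((l:ℝ) + β / 2) ^ 2)) * (((k:ℝ) - l) / (k + l + β)))) =
          ∑ i, ∑ l ∈ s, m i * (c k * c l * ((gg (p i) (q i) (((k:ℝ) + β / 2) ^ 2) -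
          gg (p i) (q i) (((l:ℝ) + β / 2) ^ 2)) * (((k:ℝ) - l) / (k + l + β)))) :=
        fun k _ => sum_comm
      rw [sum_comm, sum_congr rfl this, sum_comm]
    have e4 : ∑ k ∈ s, ∑ l ∈ s, c k * c l * ((k:ℝ) - l) ^ 2 = 0 := by
      have : ∑ k ∈ s, ∑ l ∈ s, c k * c l * ((k:ℝ) - l) ^ 2 =
          (∑ k ∈ s, (k:ℝ) ^ 2 * c k) * (∑ l ∈ s, c l) + (∑ k ∈ s, c k) * (∑ l ∈ s, (l:ℝ) ^ 2 * c l) -
            2 * ((∑ k ∈ s, (k:ℝ) * c k) * (∑ l ∈ s, (l:ℝ) * c l)) := by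
        rw [sum_mul_sum, sum_mul_sum, sum_mul_sum]
        simp only [mul_sum, ← sum_add_distrib, ← sum_sub_distrib]
        refine sum_congr rfl fun k _ => sum_congr rfl fun l _ => ?_
        ring
      rw [this, h0, h1]; ring
    rw [e3, e4, mul_zero, zero_add]
    refine sum_nonneg fun i _ => mul_nonneg (hm i) ?_
    simp only [term_id β (p i) (q i) hβ (hp i) (hq i)]
    have hnz : ∀ k : ℕ, p i * ((k:ℝ) + β / 2) ^ 2 + q i ≠ 0 := fun k => by
      have := hp i; have := hq i; positivity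
    refine quad s (fun k => (k:ℝ) + β / 2) (fun k => c k / (p i * ((k:ℝ) + β / 2) ^ 2 + q i)) (p i) (q i)
      (hp i) (hq i).le ?_ ?_
    · rw [← h0]
      refine sum_congr rfl fun k _ => ?_
      rw [mul_div_cancel₀ _ (hnz k)]
    · have : ∑ k ∈ s, ((k:ℝ) + β / 2) * c k = 0 := by
        simp only [add_mul, sum_add_distrib]
        rw [h1, ← mul_sum, h0]; ring
      rw [← this]
      refine sum_congr rfl fun k _ => ?_
      rw [mul_div_cancel₀ _ (hnz k)]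
  -- the upper bound
  set T : ℝ := ∑ k ∈ s, ∑ l ∈ s, (w k * c k) * (c l * (((k:ℝ) - l) / (k + l + β))) with hT
  have hET : E = 2 * T := by
    have e1 : E = T - ∑ k ∈ s, ∑ l ∈ s, (w l * c l) * (c k * (((k:ℝ) - l) / (k + l + β))) := by
      rw [hE, hT, ← sum_sub_distrib]
      refine sum_congr rfl fun k _ => ?_
      rw [← sum_sub_distrib]
      refine sum_congr rfl fun l _ => ?_
      ring
    have e2 : ∑ k ∈ s, ∑ l ∈ s, (w l * c l) * (c k * (((k:ℝ) - l) / (k + l + β))) = - T := by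
      rw [sum_comm, hT, ← sum_neg_distrib]
      refine sum_congr rfl fun k _ => ?_
      rw [← sum_neg_distrib]
      refine sum_congr rfl fun l _ => ?_
      have : ((l:ℝ) - k) / (l + k + β) = - (((k:ℝ) - l) / (k + l + β)) := by
        rw [← neg_div]
        congr 1 <;> ring
      rw [this]; ring
    rw [e1, e2]; ring
  have hTx : T = x * ∑ k ∈ s, ∑ l ∈ s, (((n:ℝ) - k) * c k) * (c l * (((k:ℝ) + 1 - l) / (k + 1 + l + β))) := by
    rw [hT, hs, sum_range_succ']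
    have e0 : ∑ l ∈ range (n + 1), (w 0 * c 0) * (c l * ((((0:ℕ):ℝ) - l) / (((0:ℕ):ℝ) + l + β))) = 0 := by
      apply sum_eq_zero
      intro l _
      rw [hw, W_zero]; ring
    rw [e0, add_zero, sum_range_succ (fun k => ∑ l ∈ range (n + 1), (((n:ℝ) - k) * c k) *
      (c l * (((k:ℝ) + 1 - l) / (k + 1 + l + β)))) n]
    have e1 : ∑ l ∈ range (n + 1), (((n:ℝ) - n) * c n) *
      (c l * (((n:ℝ) + 1 - l) / (n + 1 + l + β))) = 0 := by
      apply sum_eq_zero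
      intro l _
      ring
    rw [e1, add_zero, mul_sum]
    refine sum_congr rfl fun k hk => ?_
    rw [mul_sum]
    refine sum_congr rfl fun l _ => ?_
    rw [hrec k (mem_range.1 hk)]
    push_cast
    ring
  set P : ℕ → ℝ := fun k => (k:ℝ) + (1 + β) / 2 with hP
  have hPpos : ∀ k, 0 < P k := fun k => by
    rw [hP]
    have : (0:ℝ) ≤ k := Nat.cast_nonneg k
    simp only
    linarith
  have hEx : E = x * ((2 * n + 1 + β) * ∑ k ∈ s, ∑ l ∈ s, c k * c l / (P k + P l) +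
      4 * ∑ k ∈ s, ∑ l ∈ s, (P k * c k) * (P l * c l) / (P k + P l)) := by
    have e1 : ∑ k ∈ s, ∑ l ∈ s, (((n:ℝ) - k) * c k) * (c l * (((k:ℝ) + 1 - l) / (k + 1 + l + β))) =
        ∑ k ∈ s, ∑ l ∈ s, (((n:ℝ) - l) * c l) * (c k * (((l:ℝ) + 1 - k) / (l + 1 + k + β))) := sum_comm
    have e2 : ∑ k ∈ s, ∑ l ∈ s, (c k * c l + (P k * c k) * c l + c k * (P l * c l)) = 0 := by
      have : ∑ k ∈ s, ∑ l ∈ s, (c k * c l + (P k * c k) * c l + c k * (P l * c l)) =
          (∑ k ∈ s, c k) * (∑ l ∈ s, c l) + (∑ k ∈ s, P k * c k) * (∑ l ∈ s, c l) +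
            (∑ k ∈ s, c k) * (∑ l ∈ s, P l * c l) := by
        rw [sum_mul_sum, sum_mul_sum, sum_mul_sum]
        simp only [← sum_add_distrib]
      rw [this, h0]; ring
    have e3 : E = x * (∑ k ∈ s, ∑ l ∈ s, (((n:ℝ) - k) * c k) * (c l * (((k:ℝ) + 1 - l) / (k + 1 + l + β))) +
        ∑ k ∈ s, ∑ l ∈ s, (((n:ℝ) - l) * c l) * (c k * (((l:ℝ) + 1 - k) / (l + 1 + k + β)))) := by
      rw [hET, hTx, ← e1]; ring
    rw [e3]
    congr 1
    rw [← sub_eq_zero]
    rw [← neg_eq_zero, ← e2]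
    simp only [mul_sum, ← sum_add_distrib, ← sum_sub_distrib, ← sum_neg_distrib]
    refine sum_congr rfl fun k _ => sum_congr rfl fun l _ => ?_
    have g1 : (k:ℝ) + 1 + l + β ≠ 0 := by
      have : (0:ℝ) ≤ k := Nat.cast_nonneg k
      have : (0:ℝ) ≤ l := Nat.cast_nonneg l
      have : (0:ℝ) < (k:ℝ) + 1 + l + β := by linarith
      exact this.ne'
    have g2 : (l:ℝ) + 1 + k + β = (k:ℝ) + 1 + l + β := by ring
    have g3 : P k + P l = (k:ℝ) + 1 + l + β := by rw [hP]; simp only; ring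
    rw [g2, g3]
    rw [hP]
    simp only
    field_simp
    ring
  obtain ⟨q1, q2⟩ := cauchy_pos P s (fun k _ => hPpos k) (fun k _ l _ h => by
    rw [hP] at h
    simp only at h
    have : (k:ℝ) = l := by linarith
    exact_mod_cast this) c
  obtain ⟨q3, -⟩ := cauchy_pos P s (fun k _ => hPpos k) (fun k _ l _ h => by
    rw [hP] at h
    simp only at h
    have : (k:ℝ) = l := by linarith
    exact_mod_cast this) (fun k => P k * c k)
  apply q2
  have hn : (0:ℝ) < 2 * n + 1 + β := by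
    have : (0:ℝ) ≤ n := Nat.cast_nonneg n
    linarith
  by_contra hne
  have hpos : 0 < ∑ k ∈ s, ∑ l ∈ s, c k * c l / (P k + P l) := lt_of_le_of_ne q1 (Ne.symm hne)
  have : 0 < (2 * n + 1 + β) * ∑ k ∈ s, ∑ l ∈ s, c k * c l / (P k + P l) +
      4 * ∑ k ∈ s, ∑ l ∈ s, (P k * c k) * (P l * c l) / (P k + P l) := by
    have := mul_pos hn hpos
    linarith
  have := mul_neg_of_neg_of_pos hx this
  linarith

end Pool.Agent.H213.MSB
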