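import Pool.Agent.H213.MSB.Energy2
import Pool.Agent.H213.MSB.Cont

set_option autoImplicit false

open Finset Polynomial
open Pool.Agent.Helper771.MultSeq

namespace Pool.Agent.H213.MSB

/-- the sequence -/
noncomputable def gam (w : ℕ → ℝ) (k : ℕ) : ℝ := ∏ j ∈ range k, (((j : ℝ) + 1) / w (j + 1))

theorem gam_succ (w : ℕ → ℝ) (k : ℕ) : gam w (k + 1) = gam w k * (((k : ℝ) + 1) / w (k + 1)) := by
  unfold gam
  rw [prod_range_succ]

theorem gam_pos {w : ℕ → ℝ} (hw : ∀ k, 0 < w (k + 1)) (k : ℕ) : 0 < gam w k := by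
  unfold gam
  exact prod_pos fun j _ => div_pos (by positivity) (hw j)

theorem no_double {ι : Type} [Fintype ι] (n : ℕ) {β a : ℝ} (hβ : -1 < β) (ha : 0 ≤ a) {p q m : ι → ℝ}
    (hp : ∀ i, 0 ≤ p i) (hq : ∀ i, 0 < q i) (hm : ∀ i, 0 ≤ m i) (ham : 0 < a ∨ ∃ i, 0 < m i)
    {x : ℝ} (hx : x < 0)
    (h0 : ∑ k ∈ range (n + 1), (n.choose k : ℝ) * gam (W β a p q m) k * x ^ k = 0)
    (h1 : ∑ k ∈ range (n + 1), (k : ℝ) * ((n.choose k : ℝ) * gam (W β a p q m) k) * x ^ k = 0) : False := by
  have hw : ∀ k, 0 < W β a p q m (k + 1) := fun k => W_pos hβ ha hp hq hm ham (by omega)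
  have h2 := energy n β a x hβ hx p q m hp hq hm (fun k => (n.choose k : ℝ) * gam (W β a p q m) k * x ^ k)
    (by
      intro k hk
      rw [gam_succ, pow_succ]
      have h3 : (n.choose (k + 1) : ℝ) * ((k : ℝ) + 1) = n.choose k * ((n : ℝ) - k) := by
        have h4 := Nat.choose_succ_right_eq n k
        have h5 : ((n.choose (k + 1) * (k + 1) : ℕ) : ℝ) = ((n.choose k * (n - k) : ℕ) : ℝ) := by rw [h4]
        rw [Nat.cast_mul, Nat.cast_mul, Nat.cast_sub hk.le] at h5
        push_cast at h5
        exact h5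
      have h6 := (hw k).ne'
      calc W β a p q m (k + 1) * ((n.choose (k + 1) : ℝ) *
            (gam (W β a p q m) k * (((k : ℝ) + 1) / W β a p q m (k + 1))) * (x ^ k * x)) =
            ((n.choose (k + 1) : ℝ) * ((k : ℝ) + 1)) * gam (W β a p q m) k * (x ^ k * x) *
              (W β a p q m (k + 1) / W β a p q m (k + 1)) := by ring
        _ = _ := by rw [h3, div_self h6]; ring)
    h0 (by rw [← h1]; exact sum_congr rfl fun k _ => by ring)
  have h3 := h2 0 (by simp)
  simp [gam] at h3

theorem ms_W {ι : Type} [Fintype ι] {β a : ℝ} (hβ : -1 < β) (ha : 0 ≤ a) {p q m : ι → ℝ}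
    (hp : ∀ i, 0 ≤ p i) (hq : ∀ i, 0 < q i) (hm : ∀ i, 0 ≤ m i) (ham : 0 < a ∨ ∃ i, 0 < m i) :
    IsMultiplierSequence (gam (W β a p q m)) := by
  apply Pool.Agent.Q163.LP.polya_schur_pos
    (fun k => gam_pos (fun k => W_pos hβ ha hp hq hm ham (by omega)) k)
  intro n
  right
  intro z hz
  set Wt : unitInterval → ℕ → ℝ := fun t => W (t * β) ((1 - t) + t * a) p q (fun i => t * m i) with hWt
  have ht0 : ∀ t : unitInterval, (0:ℝ) ≤ t := fun t => t.2.1
  have ht1 : ∀ t : unitInterval, (t:ℝ) ≤ 1 := fun t => t.2.2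
  have hβt : ∀ t : unitInterval, -1 < (t:ℝ) * β := by
    intro t
    have h0 := ht0 t
    have h1 := ht1 t
    rcases le_or_gt 0 β with hb | hb
    · have := mul_nonneg h0 hb
      linarith
    · nlinarith
  have hat : ∀ t : unitInterval, 0 ≤ (1 - (t:ℝ)) + t * a := fun t => by
    have h0 := ht0 t
    have h1 := ht1 t
    have := mul_nonneg h0 ha
    linarith
  have hmt : ∀ (t : unitInterval) i, 0 ≤ (t:ℝ) * m i := fun t i => mul_nonneg (ht0 t) (hm i)
  have hamt : ∀ t : unitInterval, 0 < (1 - (t:ℝ)) + t * a ∨ ∃ i, 0 < (t:ℝ) * m i := by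
    intro t
    have h0 := ht0 t
    rcases lt_or_eq_of_le (ht1 t) with h1 | h1
    · left
      have := mul_nonneg h0 ha
      linarith
    · rcases ham with h | ⟨i, hi⟩
      · left; rw [h1]; linarith
      · right; exact ⟨i, by rw [h1]; linarith⟩
  have hWpos : ∀ (t : unitInterval) k, 0 < Wt t (k + 1) := fun t k =>
    W_pos (hβt t) (hat t) hp hq (hmt t) (hamt t) (by omega)
  have hWc : ∀ k, Continuous fun t => Wt t k := by
    intro k
    rw [hWt]
    unfold W gg
    have hnz : ∀ (i : ι) (y : ℝ), p i * y ^ 2 + q i ≠ 0 := fun i y => by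
      have := hp i; have := hq i; positivity
    have ht : Continuous fun t : unitInterval => (t : ℝ) := continuous_subtype_val
    refine Continuous.add ?_ ?_
    · fun_prop
    · refine continuous_finsetSum _ fun i _ => ?_
      refine Continuous.mul (by fun_prop) ?_
      refine Continuous.sub ?_ ?_
      · refine Continuous.div (by fun_prop) (by fun_prop) fun t => hnz i _
      · refine Continuous.div (by fun_prop) (by fun_prop) fun t => hnz i _
  have hgc : ∀ k, Continuous fun t => gam (Wt t) k := by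
    intro k
    unfold gam
    refine continuous_finsetProd _ fun j _ => ?_
    exact continuous_const.div (hWc (j + 1)) fun t => (hWpos t j).ne'
  set A : unitInterval → ℕ → ℝ := fun t k => (n.choose k : ℝ) * gam (Wt t) k with hA
  have hF1 : F n (A 1) z = 0 := by
    have h1 : aeval z (jen (gam (W β a p q m)) 0 n) = F n (A 1) z := by
      unfold jen F
      rw [map_sum]
      refine sum_congr rfl fun k _ => ?_
      have e : Wt 1 = W β a p q m := by
        rw [hWt]
        simp
      rw [aeval_monomial, hA]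
      simp only [e, zero_add]
      rfl
    rw [← h1]; exact hz
  refine path n A (fun k => continuous_const.mul (hgc k)) ?_ ?_ ?_ 1 z hF1
  · intro t k hk
    have h1 : 0 < n.choose k := Nat.choose_pos hk
    have h2 : (0:ℝ) < n.choose k := by exact_mod_cast h1
    exact mul_pos h2 (gam_pos (hWpos t) k)
  · intro t x hx h0 h1
    exact no_double n (hβt t) (hat t) hp hq (hmt t) (hamt t) hx h0 h1
  · intro y hy
    have h1 : ∀ k, gam (Wt 0) k = ((k.factorial : ℝ))⁻¹ := by
      intro k
      induction k with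
      | zero => simp [gam]
      | succ k ih =>
        rw [gam_succ, ih]
        have h2 : Wt 0 (k + 1) = ((k : ℝ) + 1) * ((k : ℝ) + 1) := by
          rw [hWt]
          unfold W
          simp
        rw [h2, Nat.factorial_succ]
        push_cast
        have h3 : (k.factorial : ℝ) ≠ 0 := by exact_mod_cast k.factorial_ne_zero
        field_simp
    have h2 := inJ_of_ms Pool.Agent.Q163.LP.ms_invfact 0 n
    have h3 : ∀ z : ℂ, aeval z (jen (fun k => 1 / (k.factorial : ℝ)) 0 n) = F n (A 0) z := by
      intro z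
      unfold jen F
      rw [map_sum]
      refine sum_congr rfl fun k _ => ?_
      rw [aeval_monomial, hA]
      simp only [h1, zero_add, one_div]
      rfl
    rcases h2 with h4 | h4
    · exfalso
      have h6 := coeff_jen (fun k => 1 / (k.factorial : ℝ)) 0 n 0
      rw [h4] at h6
      simp at h6
    · exact h4 y (by rw [h3]; exact hy)

end Pool.Agent.H213.MSB
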