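import Pool.Agent.H213.MSB.CN

set_option autoImplicit false

open Finset Polynomial MeasureTheory
open Pool.Agent.Helper771.MultSeq

namespace Pool.Agent.H213.MSB

/-- the weights `k² (k²)^p` -/
noncomputable def wp (p : ℝ) (k : ℕ) : ℝ := (k : ℝ) ^ 2 * ((k : ℝ) ^ 2) ^ p

theorem integrand_eq {p t y : ℝ} (ht : 0 < t) (hy : 0 ≤ y) :
    y * Real.rpowIntegrand₀₁ p t y = (t ^ p / t) * gg 1 t y := by
  unfold Real.rpowIntegrand₀₁ gg
  have h1 : t + y ≠ 0 := by positivity
  have h2 : 1 * y + t ≠ 0 := by positivity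
  field_simp
  ring

theorem CN_wp {p : ℝ} (hp : p ∈ Set.Ioo (0:ℝ) 1) : CN (wp p) := by
  intro n c h0 h1
  set C : ℝ := (∫ t in Set.Ioi (0:ℝ), Real.rpowIntegrand₀₁ p t 1)⁻¹ with hC
  have hC0 : 0 ≤ C := by
    rw [hC]
    apply inv_nonneg.2
    apply setIntegral_nonneg measurableSet_Ioi
    intro t ht
    exact Real.rpowIntegrand₀₁_nonneg hp.1 (le_of_lt ht) zero_le_one
  have hint : ∀ k : ℕ, IntegrableOn (fun t => (k:ℝ) ^ 2 * Real.rpowIntegrand₀₁ p t ((k:ℝ) ^ 2)) (Set.Ioi 0) :=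
    fun k => (Real.integrableOn_rpowIntegrand₀₁_Ioi hp (sq_nonneg _)).const_mul _
  have hw : ∀ k : ℕ, wp p k = C * ∫ t in Set.Ioi (0:ℝ), (k:ℝ) ^ 2 * Real.rpowIntegrand₀₁ p t ((k:ℝ) ^ 2) := by
    intro k
    unfold wp
    rw [Real.rpow_eq_const_mul_integral hp (sq_nonneg (k:ℝ)), integral_const_mul]
    ring
  have e1 : ∑ k ∈ range (n + 1), ∑ l ∈ range (n + 1),
      c k * c l * ((wp p k - wp p l) * (((k:ℝ) - l) / (k + l + 0))) =
      C * ∫ t in Set.Ioi (0:ℝ), ∑ k ∈ range (n + 1), ∑ l ∈ range (n + 1),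
      c k * c l * (((k:ℝ) ^ 2 * Real.rpowIntegrand₀₁ p t ((k:ℝ) ^ 2) -
        (l:ℝ) ^ 2 * Real.rpowIntegrand₀₁ p t ((l:ℝ) ^ 2)) * (((k:ℝ) - l) / (k + l + 0))) := by
    rw [integral_finsetSum]
    · rw [mul_sum]
      refine sum_congr rfl fun k _ => ?_
      rw [integral_finsetSum]
      · rw [mul_sum]
        refine sum_congr rfl fun l _ => ?_
        rw [integral_const_mul, integral_mul_const, integral_sub (hint k) (hint l), hw k, hw l]
        ring
      · intro l _
        exact (((hint k).sub (hint l)).mul_const _).const_mul _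
    · intro k _
      refine integrable_finsetSum _ fun l _ => ?_
      exact (((hint k).sub (hint l)).mul_const _).const_mul _
  rw [e1]
  apply mul_nonneg hC0
  apply setIntegral_nonneg measurableSet_Ioi
  intro t ht
  have ht0 : (0:ℝ) < t := ht
  have e2 : ∑ k ∈ range (n + 1), ∑ l ∈ range (n + 1),
      c k * c l * (((k:ℝ) ^ 2 * Real.rpowIntegrand₀₁ p t ((k:ℝ) ^ 2) -
        (l:ℝ) ^ 2 * Real.rpowIntegrand₀₁ p t ((l:ℝ) ^ 2)) * (((k:ℝ) - l) / (k + l + 0))) =
      (t ^ p / t) * ∑ k ∈ range (n + 1), ∑ l ∈ range (n + 1),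
        (c k * c l * ((gg 1 t (((k:ℝ) + 0 / 2) ^ 2) -
          gg 1 t (((l:ℝ) + 0 / 2) ^ 2)) * (((k:ℝ) - l) / (k + l + 0)))) := by
    rw [mul_sum]
    refine sum_congr rfl fun k _ => ?_
    rw [mul_sum]
    refine sum_congr rfl fun l _ => ?_
    rw [integrand_eq ht0 (sq_nonneg _), integrand_eq ht0 (sq_nonneg _), zero_div, add_zero, add_zero]
    ring
  rw [e2]
  exact mul_nonneg (by positivity) (gg_CN 0 (by norm_num) _ 1 t zero_le_one ht0 c h0 h1)

theorem ms_pow_aux {p : ℝ} (hp : p ∈ Set.Ioo (0:ℝ) 1) :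
    IsMultiplierSequence (fun k => 1 / (k.factorial : ℝ) ^ (1 + 2 * p)) := by
  have h1 := ms_CN (w := wp p) (by simp [wp]) (fun k => by unfold wp; positivity) (CN_wp hp)
  have e : gam (wp p) = fun k : ℕ => 1 / (k.factorial : ℝ) ^ (1 + 2 * p) := by
    funext k
    induction k with
    | zero => simp [gam]
    | succ k ih =>
      rw [gam_succ, ih]
      have hk : (0:ℝ) < (k:ℝ) + 1 := by positivity
      have h2 : wp p (k + 1) = ((k:ℝ) + 1) * ((k:ℝ) + 1) ^ (1 + 2 * p) := by
        unfold wp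
        push_cast
        rw [← Real.rpow_natCast ((k:ℝ) + 1) 2, ← Real.rpow_mul hk.le, ← Real.rpow_add hk]
        nth_rewrite 2 [← Real.rpow_one ((k:ℝ) + 1)]
        rw [← Real.rpow_add hk]
        congr 1
        push_cast
        ring
      rw [h2, Nat.factorial_succ]
      push_cast
      rw [Real.mul_rpow hk.le (by positivity)]
      have h3 : (0:ℝ) < (k.factorial : ℝ) ^ (1 + 2 * p) := by positivity
      have h4 : (0:ℝ) < ((k:ℝ) + 1) ^ (1 + 2 * p) := by positivity
      field_simp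
  rw [← e]
  exact h1

/-- `1 / (k!) ^ s` is a multiplier sequence for every real `s ≥ 1`. -/
theorem ms_real {s : ℝ} (hs : 1 ≤ s) : IsMultiplierSequence (fun k => 1 / (k.factorial : ℝ) ^ s) := by
  obtain ⟨N, hN⟩ : ∃ N : ℕ, s < N + 2 := ⟨⌈s⌉₊, by have := Nat.le_ceil s; linarith⟩
  induction N generalizing s with
  | zero =>
    rcases hs.eq_or_lt with h | h
    · rw [← h]
      simpa using Pool.Agent.Q163.LP.ms_invfact
    · have h1 := ms_pow_aux (p := (s - 1) / 2) ⟨by linarith, by push_cast at hN; linarith⟩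
      have e : 1 + 2 * ((s - 1) / 2) = s := by ring
      rw [e] at h1
      exact h1
  | succ N ih =>
    rcases lt_or_ge s 2 with h | h
    · rcases hs.eq_or_lt with h' | h'
      · rw [← h']
        simpa using Pool.Agent.Q163.LP.ms_invfact
      · have h1 := ms_pow_aux (p := (s - 1) / 2) ⟨by linarith, by linarith⟩
        have e : 1 + 2 * ((s - 1) / 2) = s := by ring
        rw [e] at h1
        exact h1
    · have h1 := ih (s := s - 1) (by linarith) (by push_cast at hN; linarith)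
      have h2 := ms_mul h1 Pool.Agent.Q163.LP.ms_invfact
      have e : (fun k : ℕ => 1 / (k.factorial : ℝ) ^ s) =
          fun k : ℕ => 1 / (k.factorial : ℝ) ^ (s - 1) * (1 / (k.factorial : ℝ)) := by
        funext k
        have hk : (0:ℝ) < k.factorial := by exact_mod_cast k.factorial_pos
        rw [Real.rpow_sub_one hk.ne']
        field_simp
      rw [e]
      exact h2

end Pool.Agent.H213.MSB
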